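import Pool.Agent.E8helper14.KE.Kern

/-!
# Edge modification problems for two forbidden graphs

The type `M` is editing, `H₁ = C₄` and `H₂ = 2K₂`, the complement of `C₄`.  Unless `coNP ⊆ NP/poly`,
neither `C₄`-free editing nor `2K₂`-free editing has a polynomial kernel; but `{C₄, 2K₂}`-free editing
has one.
-/

set_option autoImplicit false

namespace Pool.Agent.Results.MP_2df4ce_lc.PseudosplitH14

open Pool.Agent.E8helper14.KE Pool.Agent.CK

/-- A polynomial kernel for `C₄`-free editing or for `2K₂`-free editing gives `coNP ⊆ NP/poly`, while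
`{C₄, 2K₂}`-free editing has a polynomial kernel; so if `coNP` is not contained in `NP/poly`, then for
some type of modification there are graphs `H₁` and `H₂` such that neither the `H₁`-free nor the
`H₂`-free problem has a polynomial kernel, while the `{H₁, H₂}`-free problem has one. -/
theorem result :
    (Pool.Agent.E8helper14.KE.HasPolyKernel Kind.editing [C4] → CoNPSubsetNPPoly) ∧
    (Pool.Agent.E8helper14.KE.HasPolyKernel Kind.editing [twoK2] → CoNPSubsetNPPoly) ∧
    Pool.Agent.E8helper14.KE.HasPolyKernel Kind.editing [C4, twoK2] ∧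
    (¬ CoNPSubsetNPPoly → ∃ (M : Kind) (H₁ H₂ : FinGraph),
      ¬ Pool.Agent.E8helper14.KE.HasPolyKernel M [H₁] ∧
      ¬ Pool.Agent.E8helper14.KE.HasPolyKernel M [H₂] ∧
      Pool.Agent.E8helper14.KE.HasPolyKernel M [H₁, H₂]) :=
  ⟨incomp false, incomp true, kernel, fun h =>
    ⟨Kind.editing, C4, twoK2, fun h1 => h (incomp false h1), fun h1 => h (incomp true h1), kernel⟩⟩

end Pool.Agent.Results.MP_2df4ce_lc.PseudosplitH14
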